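import Mathlib
import Pool.Agent.H16.RF.Defs
import Pool.Agent.H16.RF.G1
import Pool.Agent.H16.RF.G2
import Pool.Agent.H16.RF.G3
import Pool.Agent.H16.RF.G4
import Pool.Agent.H16.RF.Q
import Pool.Agent.H16.RF.L
import Pool.Agent.H16.RF.U
import Pool.Agent.H16.RF.AN

/-!
MP_514792_al: there is a finitely generated residually finite group whose residual finiteness
growth function is of intermediate growth.
-/

namespace Pool.Agent.Results.MP_514792_al.Intermediate

/-- `G` is residually finite: every `g ≠ 1` lies outside some normal subgroup of finite index. -/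
def IsResiduallyFinite (G : Type) [Group G] : Prop :=
  ∀ g : G, g ≠ 1 → ∃ N : Subgroup G, N.Normal ∧ N.FiniteIndex ∧ g ∉ N

/-- The depth `D(g)`: the least index `[G : N]` of a normal subgroup `N` of finite index
with `g ∉ N`. -/
noncomputable def depth {G : Type} [Group G] (g : G) : ℕ :=
  sInf {k | ∃ N : Subgroup G, N.Normal ∧ N.FiniteIndex ∧ g ∉ N ∧ k = N.index}

/-- `|g|_S ≤ n`: `g` is a product of at most `n` elements of `S` and their inverses. -/
def LengthLE {G : Type} [Group G] (S : Finset G) (g : G) (n : ℕ) : Prop :=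
  ∃ l : List G, l.length ≤ n ∧ (∀ s ∈ l, s ∈ S ∨ s⁻¹ ∈ S) ∧ l.prod = g

/-- The residual finiteness growth function
`F_G^S(n) = max {D(g) : g ≠ 1, |g|_S ≤ n}`. -/
noncomputable def rfGrowth {G : Type} [Group G] (S : Finset G) (n : ℕ) : ℕ :=
  sSup {k | ∃ g : G, g ≠ 1 ∧ LengthLE S g n ∧ k = depth g}

/-- `f ⪯ h`: there is `C > 0` with `f(n) ≤ C h(C n)` for all `n`. -/
def Preceq (f h : ℕ → ℝ) : Prop := ∃ C : ℕ, 0 < C ∧ ∀ n, f n ≤ C * h (C * n)

/-- `F` is of intermediate growth: for every `d ≥ 1`, `n^d ⪯ F` and not `F ⪯ n^d`; and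
`F ⪯ e^n` and not `e^n ⪯ F`. -/
def IsIntermediate (F : ℕ → ℕ) : Prop :=
  (∀ d : ℕ, 1 ≤ d → Preceq (fun n => (n : ℝ) ^ d) (fun n => (F n : ℝ)) ∧
    ¬ Preceq (fun n => (F n : ℝ)) (fun n => (n : ℝ) ^ d)) ∧
  Preceq (fun n => (F n : ℝ)) (fun n => Real.exp n) ∧
  ¬ Preceq (fun n => Real.exp n) (fun n => (F n : ℝ))

open H16.RF Polynomial

section

variable {q : ℕ → (ZMod 2)[X]}

/-- upper bound for the depth -/
lemma depth_le (hq : Fam q) (n s : ℕ) (hs : 16 * (n + 1) ≤ 4 ^ s) (g : GG q) (hg : g ≠ 1)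
    (hb : g ∈ Ball (GS q) n) :
    ∃ N : Subgroup (GG q), N.Normal ∧ N.index ≠ 0 ∧ g ∉ N ∧
      N.index ≤ 2 ^ (4 * (2 ^ s * (s + 1) ^ 2)) := by
  obtain ⟨h1, h2, h3, α, h4, h5⟩ := ball_bd q n g hb
  have hpos : 1 ≤ (s + 1) ^ 2 := Nat.one_le_pow _ _ (by omega)
  have key : ∀ (c : ℕ), c ≤ 2 ^ (2 ^ s * (s + 1) ^ 2) → c ^ 4 ≤ 2 ^ (4 * (2 ^ s * (s + 1) ^ 2)) := by
    intro c hc
    calc c ^ 4 ≤ (2 ^ (2 ^ s * (s + 1) ^ 2)) ^ 4 := Nat.pow_le_pow_left hc 4
      _ = _ := by rw [← pow_mul, mul_comm]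
  have key2 : (2 : ℕ) ^ (2 ^ s) ≤ 2 ^ (2 ^ s * (s + 1) ^ 2) :=
    Nat.pow_le_pow_right (by omega) (Nat.le_mul_of_pos_right _ (by omega))
  by_cases hm : g.m = 0
  · by_cases hu : g.u = 0
    · by_cases hv : g.v = 0
      · have hα : α ∉ KK q := by
          intro h
          apply hg
          have h6 : g.c = 0 := by
            rw [h5]
            exact (QuotientAddGroup.eq_zero_iff α).2 h
          exact Gm.ext hu hv h6 hm
        obtain ⟨J, hJ, hc, hin⟩ := upper_alg hq s n hs α h4 hα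
        obtain ⟨N, hN, hgN, hi0, hi⟩ := dc J hJ g α h5 hin
        exact ⟨N, hN, hi0, hgN, hi.trans (key _ hc)⟩
      · obtain ⟨J, hJ, hc, hin⟩ := upper_alg0 hq s n hs g.v hv
          (fun k hk => (h3 k hk).trans (by omega))
        obtain ⟨N, hN, hgN, hi0, hi⟩ := duv J hJ g (Or.inr hin)
        exact ⟨N, hN, hi0, hgN, hi.trans (key _ (hc.trans key2))⟩
    · obtain ⟨J, hJ, hc, hin⟩ := upper_alg0 hq s n hs g.u hu
        (fun k hk => (h2 k hk).trans (by omega))
      obtain ⟨N, hN, hgN, hi0, hi⟩ := duv J hJ g (Or.inl hin)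
      exact ⟨N, hN, hi0, hgN, hi.trans (key _ (hc.trans key2))⟩
  · obtain ⟨N, hN, hgN, hi0, hi⟩ := dm g hm
    refine ⟨N, hN, hi0, hgN, hi.trans ?_⟩
    have h6 : g.m.natAbs + 1 ≤ 4 ^ s := by
      have h9 : (g.m.natAbs : ℤ) = |g.m| := Int.natCast_natAbs g.m
      have h10 : g.m.natAbs ≤ n := by
        have h11 : (g.m.natAbs : ℤ) ≤ (n : ℤ) := by rw [h9]; exact h1
        exact_mod_cast h11
      omega
    refine h6.trans ?_
    have h7 : (4 : ℕ) ^ s = 2 ^ (2 * s) := by rw [pow_mul]; norm_num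
    rw [h7]
    apply Nat.pow_le_pow_right (by omega)
    have h8 : s < 2 ^ s := Nat.lt_two_pow_self
    nlinarith [Nat.mul_le_mul_left (2 ^ s) hpos]

/-- lower bound for the depth -/
lemma le_index (hq : Fam q) (r : ℕ) (N : Subgroup (GG q)) (hN : N.Normal) (hi : N.index ≠ 0)
    (h : ce zz (KK q) (LaurentPolynomial.T (-1) * toLaurent (PP q r)) ∉ N) :
    2 ^ (r + 1) ≤ N.index := by
  obtain ⟨J, hJ, hc, hin⟩ := depth_lower _ N hN hi h
  by_contra hlt
  push Not at hlt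
  exact hin (lower_alg hq r J hJ (hc.trans_lt hlt))

end

/-- There is a finitely generated residually finite group `G`, with a finite generating set `S`,
whose residual finiteness growth function is of intermediate growth. Moreover it grows
faster than `n^d` for every `d` and slower than `e^{ε n}` for every `ε > 0`. -/
theorem result : ∃ (G : Type) (_ : Group G) (S : Finset G),
    Subgroup.closure (S : Set G) = ⊤ ∧ IsResiduallyFinite G ∧ IsIntermediate (rfGrowth S) ∧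
    (∀ d : ℕ, ∀ᶠ n : ℕ in Filter.atTop, (n : ℝ) ^ d ≤ rfGrowth S n) ∧
    (∀ ε : ℝ, 0 < ε → ∀ᶠ n : ℕ in Filter.atTop, (rfGrowth S n : ℝ) ≤ Real.exp (ε * n)) := by
  classical
  obtain ⟨q, hq⟩ := exists_fam
  let S : Finset (GG q) := {gx q, gy q, gt q}
  have hS : (S : Set (GG q)) = GS q := by
    simp only [S, GS, Finset.coe_insert, Finset.coe_singleton]
  have hlen : ∀ (g : GG q) n, LengthLE S g n ↔ g ∈ Ball (GS q) n := by
    intro g n
    have h1 : ∀ s, s ∈ S ↔ s ∈ GS q := by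
      intro s
      rw [← hS]
      exact Finset.mem_coe.symm
    unfold LengthLE Ball
    simp only [h1, Set.mem_ofPred_eq]
  have hexs : ∀ n : ℕ, ∃ s : ℕ, 16 * (n + 1) ≤ 4 ^ s := by
    intro n
    refine ⟨n + 3, ?_⟩
    have h8 : n + 1 ≤ 4 ^ (n + 1) := Nat.le_of_lt (Nat.lt_pow_self (by omega))
    have h9 : (4 : ℕ) ^ (n + 3) = 16 * 4 ^ (n + 1) := by rw [pow_add 4 n 3, pow_add 4 n 1]; ring
    omega
  have hne : ∀ (g : GG q), g ≠ 1 → ∀ n s, 16 * (n + 1) ≤ 4 ^ s → LengthLE S g n →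
      depth g ≤ 2 ^ (4 * (2 ^ s * (s + 1) ^ 2)) := by
    intro g hg n s hs hl
    obtain ⟨N, hN, hi0, hgN, hi⟩ := depth_le hq n s hs g hg ((hlen g n).1 hl)
    have hfi : N.FiniteIndex := ⟨hi0⟩
    have hle : depth g ≤ N.index := Nat.sInf_le ⟨N, hN, hfi, hgN, rfl⟩
    exact hle.trans hi
  have hbdd : ∀ n, BddAbove {k | ∃ g : GG q, g ≠ 1 ∧ LengthLE S g n ∧ k = depth g} := by
    intro n
    obtain ⟨s, hs⟩ := hexs n
    refine ⟨2 ^ (4 * (2 ^ s * (s + 1) ^ 2)), ?_⟩
    rintro k ⟨g, hg, hl, rfl⟩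
    exact hne g hg n s hs hl
  have hup : ∀ N s : ℕ, 16 * (N + 1) ≤ 4 ^ s → rfGrowth S N ≤ 2 ^ (4 * (2 ^ s * (s + 1) ^ 2)) := by
    intro n s hs
    apply csSup_le'
    rintro k ⟨g, hg, hl, rfl⟩
    exact hne g hg n s hs hl
  have hmono : Monotone (rfGrowth S) := by
    intro n m hnm
    apply csSup_le'
    rintro k ⟨g, hg, hl, rfl⟩
    apply le_csSup (hbdd m)
    refine ⟨g, hg, ?_, rfl⟩
    rw [hlen] at hl ⊢
    exact Ball_mono hnm hl
  have hRF : IsResiduallyFinite (GG q) := by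
    intro g hg
    have hmem : ∃ n, g ∈ Ball (GS q) n := by
      have h1 : g ∈ Subgroup.closure (GS q) := by rw [gen]; trivial
      induction h1 using Subgroup.closure_induction with
      | mem x hx => exact ⟨1, Ball_gen hx⟩
      | one => exact absurd rfl hg
      | mul x y _ _ hx hy =>
        by_cases h1 : x = 1
        · subst h1
          rw [one_mul] at hg ⊢
          exact hy hg
        · by_cases h2 : y = 1
          · subst h2
            rw [mul_one] at hg ⊢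
            exact hx hg
          · obtain ⟨n, hn⟩ := hx h1
            obtain ⟨m, hm⟩ := hy h2
            exact ⟨n + m, Ball_mul hn hm⟩
      | inv x _ hx =>
        obtain ⟨n, hn⟩ := hx (by rintro rfl; exact hg inv_one)
        exact ⟨n, Ball_inv hn⟩
    obtain ⟨n, hn⟩ := hmem
    obtain ⟨s, hs⟩ := hexs n
    obtain ⟨N, hN, hi0, hgN, -⟩ := depth_le hq n s hs g hg hn
    exact ⟨N, hN, ⟨hi0⟩, hgN⟩
  have hlow : ∀ r : ℕ, 2 ^ (r + 1) ≤ rfGrowth S (20 * (r * (r + 1) / 2 + 2)) := by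
    intro r
    let g := ce zz (KK q) (LaurentPolynomial.T (-1) * toLaurent (PP q r))
    have hg : g ≠ 1 := by
      intro h
      apply alpha_not_mem hq r
      have h1 : cl (KK q) (LaurentPolynomial.T (-1) * toLaurent (PP q r)) = 0 :=
        congrArg Gm.c h
      exact (QuotientAddGroup.eq_zero_iff _).1 h1
    have hball : g ∈ Ball (GS q) (20 * (r * (r + 1) / 2 + 2)) := by
      have := ball_ce q (PP q r)
      rwa [natDegree_PP hq] at this
    have hd : 2 ^ (r + 1) ≤ depth g := by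
      obtain ⟨N, hN, hf, hgN⟩ := hRF g hg
      have hne : {k | ∃ N : Subgroup (GG q), N.Normal ∧ N.FiniteIndex ∧ g ∉ N ∧ k = N.index}.Nonempty :=
        ⟨_, N, hN, hf, hgN, rfl⟩
      obtain ⟨N', hN', hf', hgN', hk⟩ := Nat.sInf_mem hne
      show 2 ^ (r + 1) ≤ sInf _
      rw [hk]
      exact le_index hq r N' hN' hf'.index_ne_zero hgN'
    exact hd.trans (le_csSup (hbdd _) ⟨g, hg, (hlen g _).2 hball, rfl⟩)
  obtain ⟨a1, a2, a3, a4, a5⟩ := analysis (rfGrowth S) hmono hup hlow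
  refine ⟨GG q, inferInstance, S, ?_, hRF, ⟨a1, a2, a3⟩, a5, a4⟩
  rw [hS]
  exact gen q

end Pool.Agent.Results.MP_514792_al.Intermediate
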